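import Pool.Agent.H40.Magic.Main

/-!
# No magic numbers over any finite alphabet with at least two letters

For every finite alphabet `Γ` with at least two letters, every `n ≥ 1` and every `α` with `n ≤ α ≤ 2 ^ n` there is a
minimal `n`-state NFA over `Γ` (with a single start state; no NFA with fewer states, even with several start states,
accepts the same language) whose language has exactly `α` left quotients, i.e. whose minimal complete DFA has
exactly `α` states.  For `|Γ| = 2` this is Q1, for `|Γ| = 3` it is Q2.
-/

set_option autoImplicit false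

namespace Pool.Agent.Results.MP_c3e474_lc.AllAlphabets

/-- relabelling of the letters of an NFA -/
def relabel {A B σ : Type} (M : NFA A σ) (f : B → A) : NFA B σ where
  step s c := M.step s (f c)
  start := M.start
  accept := M.accept

theorem relabel_stepSet {A B σ : Type} (M : NFA A σ) (f : B → A) (S : Set σ) (c : B) :
    (relabel M f).stepSet S c = M.stepSet S (f c) := rfl

theorem relabel_evalFrom {A B σ : Type} (M : NFA A σ) (f : B → A) (w : List B) :
    ∀ S : Set σ, (relabel M f).evalFrom S w = M.evalFrom S (w.map f) := by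
  induction w with
  | nil => intro S; rfl
  | cons c w ih =>
    intro S
    rw [NFA.evalFrom_cons, List.map_cons, NFA.evalFrom_cons, relabel_stepSet, ih]

theorem relabel_accepts {A B σ : Type} (M : NFA A σ) (f : B → A) (w : List B) :
    w ∈ (relabel M f).accepts ↔ w.map f ∈ M.accepts := by
  rw [NFA.mem_accepts, NFA.mem_accepts, relabel_evalFrom]
  exact Iff.rfl

theorem result (Γ : Type) [Fintype Γ] (hΓ : 2 ≤ Fintype.card Γ) :
    ∀ n : ℕ, 1 ≤ n → ∀ α : ℕ, n ≤ α → α ≤ 2 ^ n →
      ∃ M : NFA Γ (Fin n), (∃ q : Fin n, M.start = {q}) ∧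
        (∀ m : ℕ, m < n → ∀ N : NFA Γ (Fin m), N.accepts ≠ M.accepts) ∧
        Nat.card (Set.range (fun u : List Γ =>
            ({w : List Γ | u ++ w ∈ M.accepts} : Set (List Γ)))) = α := by
  intro n hn α h1 h2
  obtain ⟨M, hs, hmin, hc⟩ := Pool.Agent.H40.Magic.nonMagic_every n hn α h1 h2
  obtain ⟨x, y, hxy⟩ := Fintype.one_lt_card_iff.1 (by omega : 1 < Fintype.card Γ)
  classical
  let f : Γ → Fin 2 := fun c => if c = y then 1 else 0
  let g : Fin 2 → Γ := fun b => if b = 0 then x else y
  have hfg : ∀ b, f (g b) = b := by
    intro b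
    fin_cases b
    · simp [f, g, hxy]
    · simp [f, g]
  have hmap : ∀ w : List (Fin 2), (w.map g).map f = w := by
    intro w
    rw [List.map_map]
    conv_rhs => rw [← List.map_id w]
    exact List.map_congr_left (fun b _ => hfg b)
  refine ⟨relabel M f, hs, ?_, ?_⟩
  · intro m hm N hN
    refine hmin m hm (relabel N g) ?_
    ext w
    rw [relabel_accepts, hN, relabel_accepts, hmap]
  · rw [← hc]
    let F : Set (List (Fin 2)) → Set (List Γ) := fun L => {w | w.map f ∈ L}
    have hF : Function.Injective F := by
      intro L L' h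
      ext w
      have := Set.ext_iff.1 h (w.map g)
      change (w.map g).map f ∈ L ↔ (w.map g).map f ∈ L' at this
      rwa [hmap] at this
    have hr : Set.range (fun u : List Γ =>
        ({w : List Γ | u ++ w ∈ (relabel M f).accepts} : Set (List Γ))) =
        F '' Set.range (fun u : List (Fin 2) =>
          ({w : List (Fin 2) | u ++ w ∈ M.accepts} : Set (List (Fin 2)))) := by
      ext L
      constructor
      · rintro ⟨u, rfl⟩
        refine ⟨_, ⟨u.map f, rfl⟩, ?_⟩
        ext w
        change u.map f ++ w.map f ∈ M.accepts ↔ u ++ w ∈ (relabel M f).accepts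
        rw [relabel_accepts, List.map_append]
      · rintro ⟨_, ⟨u, rfl⟩, rfl⟩
        refine ⟨u.map g, ?_⟩
        ext w
        change u.map g ++ w ∈ (relabel M f).accepts ↔ u ++ w.map f ∈ M.accepts
        rw [relabel_accepts, List.map_append, hmap]
    rw [hr, Nat.card_image_of_injective hF]

end Pool.Agent.Results.MP_c3e474_lc.AllAlphabets
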